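import Pool.Agent.H.MP_cfac02_lc.B

set_option autoImplicit false

namespace Pool.Agent.Results.MP_cfac02_lc.Singular

open Cardinal

universe u

theorem result (μ : Cardinal.{u}) (hs : μ.IsSingular)
    (h : μ.IsStrongLimit ∨ ∀ c : Cardinal.{u}, ℵ₀ ≤ c → 2 ^ c = Order.succ c) :
    IsLeast {l : Cardinal.{u} | ∀ (P : Type u) [PartialOrder P],
      (∀ X : Set P, IsAntichain (· ≤ ·) X → Cardinal.mk X ≠ μ) →
      ∃ F : Set (Order.Ideal P), Cardinal.mk F < l ∧ ∀ p : P, ∃ I ∈ F, p ∈ I} μ := by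
  have h2 : ∀ c < μ, 2 ^ c < μ := by
    rcases h with h | h
    · exact fun c hc => h.two_power_lt hc
    · intro c hc
      rcases lt_or_ge c ℵ₀ with h1 | h1
      · exact (power_lt_aleph0 (natCast_lt_aleph0) h1).trans_le hs.aleph0_le
      · rw [h c h1]
        exact hs.isSuccLimit.succ_lt hc
  constructor
  · intro P _ hP
    obtain ⟨G, h3, h4, h5⟩ := Pool.Agent.H.MP_cfac02_lc.final hs h2 hP
    refine ⟨Set.range fun A : G => (⟨⟨A.1, (h4 A.1 A.2).2.1⟩, (h4 A.1 A.2).1,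
      (h4 A.1 A.2).2.2⟩ : Order.Ideal P), mk_range_le.trans_lt h3, fun p => ?_⟩
    obtain ⟨A, h6, h7⟩ := h5 p
    exact ⟨_, ⟨⟨A, h6⟩, rfl⟩, h7⟩
  · intro l hl
    by_contra h3
    push Not at h3
    letI : PartialOrder l.out :=
      { le := Eq, le_refl := fun _ => rfl, le_trans := fun _ _ _ => Eq.trans,
        le_antisymm := fun _ _ h _ => h }
    obtain ⟨F, h4, h5⟩ := hl l.out fun X _ => ((mk_set_le X).trans_lt (by rwa [mk_out])).ne
    choose f h6 h7 using h5
    refine h4.not_ge ((mk_out l).ge.trans (mk_le_of_injective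
      (f := fun p => (⟨f p, h6 p⟩ : F)) fun p q hpq => ?_))
    have h8 : f p = f q := congrArg Subtype.val hpq
    obtain ⟨z, -, h9, h10⟩ := (f p).directed p (h7 p) q (h8 ▸ h7 q)
    exact Eq.trans h9 (Eq.symm h10)

end Pool.Agent.Results.MP_cfac02_lc.Singular
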